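import Pool.Agent.H15.SF.Fin

namespace Pool.Agent.H15.SF

open MeasureTheory Finset Function
open scoped ENNReal
open Pool.Agent.K7.H26.SM

lemma three_halves : (3 / 2 : ℝ) ^ (2 / 3 : ℝ) ≤ 1.32 := by
  have h1 : ((3 / 2 : ℝ)) ^ (2 / 3 : ℝ) = ((3 / 2 : ℝ) ^ 2) ^ (1 / 3 : ℝ) := by
    rw [← Real.rpow_natCast, ← Real.rpow_mul (by norm_num)]
    norm_num
  have h2 : (1.32 : ℝ) = ((1.32 : ℝ) ^ 3) ^ (1 / 3 : ℝ) := by
    rw [← Real.rpow_natCast, ← Real.rpow_mul (by norm_num)]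
    norm_num
  rw [h1, h2]
  apply Real.rpow_le_rpow (by norm_num) _ (by norm_num)
  norm_num

section

variable {n : ℕ}

open scoped Classical in
lemma mult_one {p : Fin n → ℝ × ℝ} (hp : Injective p) (z : ℝ × ℝ) :
    (univ.filter fun j => p j = z).card ≤ 1 := by
  rw [card_le_one]
  intro a ha b hb
  rw [mem_filter] at ha hb
  exact hp (ha.2.trans hb.2.symm)

lemma noise_D (p : Fin n → ℝ × ℝ) {r D : ℝ} (hr : 0 < r)
    (hD : ∀ i j, |(p i).1 - (p j).1| ≤ D ∧ |(p i).2 - (p j).2| ≤ D) :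
    Noise (fun i => unif (p i) r) p (fun _ => r) (1 / 4) (D + 2 * r) :=
  noise_unif p (fun _ => r) (fun _ => hr) (fun i j => by
    obtain ⟨h1, h2⟩ := hD i j
    constructor <;> linarith)

open scoped Classical in
theorem move_diff (p : Fin n → ℝ × ℝ) (hp : Injective p) {r : ℝ} (hr : 0 < r) :
    ∃ x : Fin n → ℝ × ℝ, Injective x ∧ GeneralPosition (univ.image x) ∧
      (∀ i, |(x i).1 - (p i).1| ≤ r ∧ |(x i).2 - (p i).2| ≤ r) ∧
      ({L | IsBisector (univ.image x) L}.ncard : ℝ) ≤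
        64 * (univ.image fun e : Fin n × Fin n => p e.2 - p e.1).card := by
  set D : ℝ := ∑ e : Fin n × Fin n, (|(p e.1).1 - (p e.2).1| + |(p e.1).2 - (p e.2).2|) with hD
  have hDle : ∀ i j, |(p i).1 - (p j).1| ≤ D ∧ |(p i).2 - (p j).2| ≤ D := by
    intro i j
    have h1 : |(p i).1 - (p j).1| + |(p i).2 - (p j).2| ≤ D := by
      have := single_le_sum (s := (univ : Finset (Fin n × Fin n)))
        (f := fun e => |(p e.1).1 - (p e.2).1| + |(p e.1).2 - (p e.2).2|)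
        (fun e _ => by positivity) (mem_univ (i, j))
      exact this
    have h2 := abs_nonneg ((p i).1 - (p j).1)
    have h3 := abs_nonneg ((p i).2 - (p j).2)
    constructor <;> linarith
  have h := noise_D p hr hDle
  set V : Finset (ℝ × ℝ) := univ.image fun e : Fin n × Fin n => p e.2 - p e.1 with hV
  have h1 := edgesOn_V h hr (mult_one hp) (E := univ) (V := V) (fun i j _ => by
    rw [hV]; exact mem_image_of_mem (fun e : Fin n × Fin n => p e.2 - p e.1) (mem_univ (i, j)))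
    (n / 2 - 1)
  apply exists_move p hr h (by positivity)
  refine le_trans (le_of_eq ?_) (h1.trans (le_of_eq ?_))
  · rfl
  · congr 1
    push_cast
    ring

lemma mid_le (hn : 2 ≤ n) : ((min (n / 2 - 1 + 1) (n - 1 - (n / 2 - 1)) : ℕ) : ℝ) ≤ n / 2 ∧
    (n:ℝ) / 3 ≤ ((min (n / 2 - 1 + 1) (n - 1 - (n / 2 - 1)) : ℕ) : ℝ) := by
  set m := min (n / 2 - 1 + 1) (n - 1 - (n / 2 - 1)) with hm
  have h1 : 2 * m ≤ n := by omega
  have h2 : n ≤ 3 * m := by omega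
  have h3 : (2:ℝ) * m ≤ n := by exact_mod_cast h1
  have h4 : (n:ℝ) ≤ 3 * m := by exact_mod_cast h2
  constructor <;> linarith

open scoped Classical in
theorem move_sepdiff (p : Fin n → ℝ × ℝ) (hp : Injective p) {r δ D : ℝ} (hr : 0 < r) (hrδ : r ≤ δ)
    (hδD : δ ≤ D) (hpD : ∀ i j, |(p i).1 - (p j).1| ≤ D ∧ |(p i).2 - (p j).2| ≤ D)
    (hsep : ∀ i j i' j', p j - p i ≠ p j' - p i' →
        δ ≤ |(p j - p i).1 - (p j' - p i').1| ∨ δ ≤ |(p j - p i).2 - (p j' - p i').2|) :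
    ∃ x : Fin n → ℝ × ℝ, Injective x ∧ GeneralPosition (univ.image x) ∧
      (∀ i, |(x i).1 - (p i).1| ≤ r ∧ |(x i).2 - (p i).2| ≤ r) ∧
      ({L | IsBisector (univ.image x) L}.ncard : ℝ) ≤ 8500 * (n * D / δ) ^ (2 / 3 : ℝ) := by
  have hδ : 0 < δ := hr.trans_le hrδ
  have hD : 0 < D := hδ.trans_le hδD
  have h := noise_D p hr hpD
  apply exists_move p hr h (by positivity)
  by_cases hn : n < 2
  · rw [edges_degenerate h (by omega)]
    exact zero_le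
  push Not at hn
  have hnR : (0:ℝ) < n := by exact_mod_cast (by omega : 0 < n)
  refine (edges_diff h hr hrδ (by linarith) (mult_one hp) hsep (n / 2 - 1)).trans
    (ENNReal.ofReal_le_ofReal ?_)
  set m := min (n / 2 - 1 + 1) (n - 1 - (n / 2 - 1)) with hm
  have hm2 := (mid_le hn).1
  rw [← hm] at hm2
  have h1 : (m:ℝ) * (D + 2 * r) / δ ≤ 3 / 2 * (n * D / δ) := by
    rw [div_le_iff₀ hδ]
    have e : 3 / 2 * ((n:ℝ) * D / δ) * δ = (n / 2) * (3 * D) := by field_simp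
    rw [e]
    exact mul_le_mul hm2 (by linarith) (by linarith) (by positivity)
  have h2 : ((m:ℝ) * (D + 2 * r) / δ) ^ (2 / 3 : ℝ) ≤ 1.32 * (n * D / δ) ^ (2 / 3 : ℝ) := by
    calc ((m:ℝ) * (D + 2 * r) / δ) ^ (2 / 3 : ℝ) ≤ (3 / 2 * (n * D / δ)) ^ (2 / 3 : ℝ) :=
          Real.rpow_le_rpow (by positivity) h1 (by norm_num)
      _ = (3 / 2) ^ (2 / 3 : ℝ) * (n * D / δ) ^ (2 / 3 : ℝ) :=
          Real.mul_rpow (by norm_num) (by positivity)
      _ ≤ 1.32 * (n * D / δ) ^ (2 / 3 : ℝ) :=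
          mul_le_mul_of_nonneg_right three_halves (by positivity)
  have h3 : 0 ≤ ((n:ℝ) * D / δ) ^ (2 / 3 : ℝ) := by positivity
  push_cast
  linarith

open scoped Classical in
theorem move_sep (p : Fin n → ℝ × ℝ) {r δ D : ℝ} (hr : 0 < r) (hrδ : r ≤ δ)
    (hδD : δ ≤ D) (h3 : 3 * δ ^ 2 ≤ n * D * r)
    (hpD : ∀ i j, |(p i).1 - (p j).1| ≤ D ∧ |(p i).2 - (p j).2| ≤ D)
    (hsep : ∀ i j, i ≠ j → δ ≤ |(p i).1 - (p j).1| ∨ δ ≤ |(p i).2 - (p j).2|) :
    ∃ x : Fin n → ℝ × ℝ, Injective x ∧ GeneralPosition (univ.image x) ∧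
      (∀ i, |(x i).1 - (p i).1| ≤ r ∧ |(x i).2 - (p i).2| ≤ r) ∧
      ({L | IsBisector (univ.image x) L}.ncard : ℝ) ≤
        21000 * (n * D) ^ (2 / 3 : ℝ) / (δ * r) ^ (1 / 3 : ℝ) := by
  have hδ : 0 < δ := hr.trans_le hrδ
  have hD : 0 < D := hδ.trans_le hδD
  have h := noise_D p hr hpD
  apply exists_move p hr h (by positivity)
  by_cases hn : n < 2
  · rw [edges_degenerate h (by omega)]
    exact zero_le
  push Not at hn
  have hnR : (0:ℝ) < n := by exact_mod_cast (by omega : 0 < n)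
  set m := min (n / 2 - 1 + 1) (n - 1 - (n / 2 - 1)) with hm
  obtain ⟨hm2, hm3⟩ := mid_le hn
  rw [← hm] at hm2 hm3
  have hcond : δ ^ 2 ≤ (m:ℝ) * (D + 2 * r) * r := by
    have a1 : (n:ℝ) / 3 * D * r ≤ m * (D + 2 * r) * r := by
      apply mul_le_mul_of_nonneg_right _ hr.le
      exact mul_le_mul hm3 (by linarith) hD.le (by positivity)
    nlinarith
  refine (edges_sep h hr hrδ hsep (n / 2 - 1) hcond).trans (ENNReal.ofReal_le_ofReal ?_)
  rw [← hm]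
  have h1 : (m:ℝ) * (D + 2 * r) ≤ 3 / 2 * (n * D) := by
    have e : 3 / 2 * ((n:ℝ) * D) = (n / 2) * (3 * D) := by ring
    rw [e]
    exact mul_le_mul hm2 (by linarith) (by linarith) (by positivity)
  have h2 : ((m:ℝ) * (D + 2 * r)) ^ (2 / 3 : ℝ) ≤ 1.32 * (n * D) ^ (2 / 3 : ℝ) := by
    calc ((m:ℝ) * (D + 2 * r)) ^ (2 / 3 : ℝ) ≤ (3 / 2 * (n * D)) ^ (2 / 3 : ℝ) :=
          Real.rpow_le_rpow (by positivity) h1 (by norm_num)
      _ = (3 / 2) ^ (2 / 3 : ℝ) * (n * D) ^ (2 / 3 : ℝ) :=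
          Real.mul_rpow (by norm_num) (by positivity)
      _ ≤ 1.32 * (n * D) ^ (2 / 3 : ℝ) :=
          mul_le_mul_of_nonneg_right three_halves (by positivity)
  have h3 : 0 ≤ ((n:ℝ) * D) ^ (2 / 3 : ℝ) := by positivity
  have h4 : 0 < (δ * r) ^ (1 / 3 : ℝ) := by positivity
  have e5 : 2 * (21000 * ((n:ℝ) * D) ^ (2 / 3 : ℝ) / (δ * r) ^ (1 / 3 : ℝ)) =
      (42000 * ((n:ℝ) * D) ^ (2 / 3 : ℝ)) / (δ * r) ^ (1 / 3 : ℝ) := by ring
  rw [e5]
  apply div_le_div_of_nonneg_right _ h4.le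
  linarith

end

end Pool.Agent.H15.SF
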