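import Pool.Agent.H15.SF.Sep

namespace Pool.Agent.H15.SF

open MeasureTheory Finset Function
open scoped ENNReal
open Pool.Agent.K7.H26.SM

section

variable {n : ℕ} {f : Fin n → ℝ × ℝ → ℝ≥0∞} {p : Fin n → ℝ × ℝ} {r κ D : ℝ}

lemma edges_degenerate (h : Noise f p (fun _ => r) κ D) {k : ℕ} (hk : n < k + 2) :
    ∫⁻ x, (edges x k : ℝ≥0∞) ∂law f = 0 := by
  rw [lintegral_eq_zero_iff' ]
  · filter_upwards [h.ae_good] with x hx
    rw [edges_zero hx.2 hk]
    simp
  · exact (measurable_from_top.comp (measurable_edges k)).aemeasurable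

lemma rpow_two_thirds {Y : ℝ} (hY : 0 < Y) :
    ∃ X : ℝ, 0 < X ∧ X ^ 3 = Y ∧ X ^ 2 = Y ^ (2 / 3 : ℝ) ∧ (1 ≤ Y → 1 ≤ X) ∧
      X = Y ^ (1 / 3 : ℝ) := by
  refine ⟨Y ^ (1 / 3 : ℝ), Real.rpow_pos_of_pos hY _, ?_, ?_, fun h => ?_, rfl⟩
  · rw [← Real.rpow_natCast, ← Real.rpow_mul hY.le]
    norm_num
  · rw [← Real.rpow_natCast, ← Real.rpow_mul hY.le]
    norm_num
  · exact Real.one_le_rpow h (by norm_num)

open scoped Classical in
/-- squares whose differences are separated -/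
theorem edges_diff (h : Noise f p (fun _ => r) κ D) (hr : 0 < r) {δ : ℝ} (hrδ : r ≤ δ)
    (hδD : δ ≤ D) {μ : ℕ} (hμ : ∀ z, (univ.filter fun j => p j = z).card ≤ μ)
    (hsep : ∀ i j i' j', p j - p i ≠ p j' - p i' →
      δ ≤ |(p j - p i).1 - (p j' - p i').1| ∨ δ ≤ |(p j - p i).2 - (p j' - p i').2|) (k : ℕ) :
    ∫⁻ x, (edges x k : ℝ≥0∞) ∂law f ≤
      ENNReal.ofReal (51216 * κ * μ * ((min (k + 1) (n - 1 - k) : ℕ) * D / δ) ^ (2 / 3 : ℝ)) := by
  by_cases hk : n < k + 2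
  · rw [edges_degenerate h hk]
    exact zero_le
  push Not at hk
  have hn : 0 < n := by omega
  have hκ := h.kpos
  have hκ4 := h.four_kappa hn
  have hδ : 0 < δ := hr.trans_le hrδ
  have hD : 0 < D := hδ.trans_le hδD
  have hμ1 : (1:ℝ) ≤ μ := by
    have h1 : 0 < (univ.filter fun j => p j = p ⟨0, hn⟩).card :=
      card_pos.mpr ⟨⟨0, hn⟩, by simp⟩
    exact_mod_cast h1.trans_le (hμ (p ⟨0, hn⟩))
  set m := min (k + 1) (n - 1 - k) with hm
  have hm0 : 0 < m := by omega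
  have hmR : (1:ℝ) ≤ m := by exact_mod_cast hm0
  have hY : 1 ≤ (m:ℝ) * D / δ := by
    rw [le_div_iff₀ hδ]
    nlinarith
  obtain ⟨X, hX0, hX3, hX2, hX1, -⟩ := rpow_two_thirds (by linarith : 0 < (m:ℝ) * D / δ)
  have hX1 := hX1 hY
  set K := ⌈D / (δ * X)⌉₊ with hKdef
  have hK : 0 < K := Nat.ceil_pos.mpr (by positivity)
  have hKR : (0:ℝ) < K := by exact_mod_cast hK
  have hK1 : (K:ℝ) - 1 ≤ D / (δ * X) := by
    have := Nat.ceil_lt_add_one (by positivity : 0 ≤ D / (δ * X))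
    linarith
  have hK2 : D / K ≤ δ * X := by
    have h1 := Nat.le_ceil (D / (δ * X))
    rw [div_le_iff₀ hKR]
    rw [div_le_iff₀ (by positivity)] at h1
    linarith
  set W := D / K + 3 * r with hW
  have hWle : W ≤ 4 * (δ * X) := by
    have : r ≤ δ * X := by nlinarith
    linarith
  have hW0 : 0 ≤ W := by positivity
  set V : Finset (ℝ × ℝ) := (univ.filter fun e : Fin n × Fin n =>
    |(p e.2).1 - (p e.1).1| ≤ W ∧ |(p e.2).2 - (p e.1).2| ≤ W).image (fun e => p e.2 - p e.1)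
    with hV
  have hVc : (V.card : ℝ) ≤ 100 * X ^ 2 := by
    have h1 := card_le_grid V (fun v => v.1 / δ) (fun v => v.2 / δ) (X := W / δ) (Y := W / δ)
      (by positivity) (by positivity) (fun v hv => by
        rw [hV, mem_image] at hv
        obtain ⟨e, he, rfl⟩ := hv
        rw [mem_filter] at he
        rw [abs_div, abs_of_pos hδ]
        exact div_le_div_of_nonneg_right he.2.1 hδ.le) (fun v hv => by
        rw [hV, mem_image] at hv
        obtain ⟨e, he, rfl⟩ := hv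
        rw [mem_filter] at he
        rw [abs_div, abs_of_pos hδ]
        exact div_le_div_of_nonneg_right he.2.2 hδ.le) (fun v hv v' hv' a1 a2 => by
        rw [hV, mem_image] at hv hv'
        obtain ⟨e, he, rfl⟩ := hv
        obtain ⟨e', he', rfl⟩ := hv'
        by_contra hne
        rw [← sub_div, abs_div, abs_of_pos hδ, div_lt_one hδ] at a1 a2
        rcases hsep e.1 e.2 e'.1 e'.2 hne with h3 | h3
        · linarith
        · linarith)
    have h2 : W / δ ≤ 4 * X := by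
      rw [div_le_iff₀ hδ]; linarith
    have h3 : 0 ≤ W / δ := by positivity
    calc (V.card : ℝ) ≤ (2 * (W / δ) + 2) * (2 * (W / δ) + 2) := h1
      _ ≤ (10 * X) * (10 * X) := by
          apply mul_le_mul <;> linarith
      _ = 100 * X ^ 2 := by ring
  have hmain := edges_V h hr hμ hK (V := V) (fun i j a1 a2 => by
    rw [hV, mem_image]
    exact ⟨(i, j), mem_filter.mpr ⟨mem_univ _, a1, a2⟩, rfl⟩) k
  refine hmain.trans (ENNReal.ofReal_le_ofReal ?_)
  rw [← hX2, ← hm]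
  have h1 : 4 * ((K:ℝ) - 1) * m ≤ 4 * X ^ 2 := by
    have h2 : ((K:ℝ) - 1) * m ≤ D / (δ * X) * m :=
      mul_le_mul_of_nonneg_right hK1 (by linarith)
    have h3 : D / (δ * X) * m = X ^ 2 := by
      have : D / (δ * X) * m = (m * D / δ) / X := by field_simp
      rw [this, ← hX3]
      field_simp
    nlinarith
  have h4 : 4 * X ^ 2 ≤ 16 * κ * μ * X ^ 2 := by
    have : 4 ≤ 16 * κ * μ := by nlinarith
    nlinarith [sq_nonneg X]
  have h5 : 512 * κ * μ * (V.card : ℝ) ≤ 512 * κ * μ * (100 * X ^ 2) :=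
    mul_le_mul_of_nonneg_left hVc (by positivity)
  calc 4 * ((K:ℝ) - 1) * m + 512 * κ * μ * V.card
      ≤ 16 * κ * μ * X ^ 2 + 512 * κ * μ * (100 * X ^ 2) := by linarith
    _ = 51216 * κ * μ * X ^ 2 := by ring

/-- separated squares -/
theorem edges_sep (h : Noise f p (fun _ => r) κ D) (hr : 0 < r) {δ : ℝ} (hrδ : r ≤ δ)
    (hsep : ∀ i j, i ≠ j → δ ≤ |(p i).1 - (p j).1| ∨ δ ≤ |(p i).2 - (p j).2|) (k : ℕ)
    (hδ2 : δ ^ 2 ≤ (min (k + 1) (n - 1 - k) : ℕ) * D * r) :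
    ∫⁻ x, (edges x k : ℝ≥0∞) ∂law f ≤
      ENNReal.ofReal (124432 * κ * ((min (k + 1) (n - 1 - k) : ℕ) * D) ^ (2 / 3 : ℝ) /
        (δ * r) ^ (1 / 3 : ℝ)) := by
  by_cases hk : n < k + 2
  · rw [edges_degenerate h hk]
    exact zero_le
  push Not at hk
  have hn : 0 < n := by omega
  have hκ := h.kpos
  have hκ4 := h.four_kappa hn
  have hδ : 0 < δ := hr.trans_le hrδ
  have hD : 0 < D := D_pos h hr hn
  set m := min (k + 1) (n - 1 - k) with hm
  have hm0 : 0 < m := by omega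
  have hmR : (1:ℝ) ≤ m := by exact_mod_cast hm0
  have hY0 : 0 < (m:ℝ) * D := by positivity
  obtain ⟨X, hX0, hX3, hX2, -, -⟩ := rpow_two_thirds hY0
  obtain ⟨Z, hZ0, hZ3, -, -, hZ1⟩ := rpow_two_thirds (by positivity : 0 < δ * r)
  rw [← hZ1, ← hX2]
  set w := X * Z with hw
  have hw0 : 0 < w := by positivity
  have hw3 : w ^ 3 = m * D * (δ * r) := by rw [hw, mul_pow, hX3, hZ3]
  have hδw : δ ≤ w := by
    have : δ ^ 3 ≤ w ^ 3 := by
      rw [hw3]
      nlinarith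
    exact le_of_pow_le_pow_left₀ (by norm_num) hw0.le this
  have hrw : r ≤ w := hrδ.trans hδw
  set K := ⌈D / w⌉₊ with hKdef
  have hK : 0 < K := Nat.ceil_pos.mpr (by positivity)
  have hKR : (0:ℝ) < K := by exact_mod_cast hK
  have hK1 : (K:ℝ) - 1 ≤ D / w := by
    have := Nat.ceil_lt_add_one (by positivity : 0 ≤ D / w)
    linarith
  have hK2 : D / K ≤ w := by
    have h1 := Nat.le_ceil (D / w)
    rw [div_le_iff₀ hKR]
    rw [div_le_iff₀ (by positivity)] at h1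
    linarith
  have hmain := edges_sepK h hr hδ hsep hK k
  refine hmain.trans (ENNReal.ofReal_le_ofReal ?_)
  rw [← hm]
  have h1 : 4 * ((K:ℝ) - 1) * m ≤ 4 * (X ^ 2 / Z) := by
    have h2 : ((K:ℝ) - 1) * m ≤ D / w * m := mul_le_mul_of_nonneg_right hK1 (by linarith)
    have h3 : D / w * m = X ^ 2 / Z := by
      have : D / w * m = (m * D) / w := by ring
      rw [this, ← hX3, hw]
      field_simp
    nlinarith
  have hXZ : 0 < X ^ 2 / Z := by positivity
  have h4 : 4 * (X ^ 2 / Z) ≤ 16 * κ * (X ^ 2 / Z) := by nlinarith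
  have h5 : D / K + 5 * r ≤ 6 * w := by linarith
  have h6 : 4 * (D / K + 3 * r) / δ + 2 ≤ 18 * w / δ := by
    rw [div_add' _ _ _ hδ.ne']
    apply div_le_div_of_nonneg_right _ hδ.le
    linarith
  have h7 : 16 / δ + 2 / r ≤ 18 / r := by
    have : 16 / δ ≤ 16 / r := div_le_div_of_nonneg_left (by norm_num) hr hrδ
    have e : (18:ℝ) / r = 16 / r + 2 / r := by ring
    linarith
  have h8 : 64 * κ * (D / K + 5 * r) * (4 * (D / K + 3 * r) / δ + 2) * (16 / δ + 2 / r) ≤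
      64 * κ * (6 * w) * (18 * w / δ) * (18 / r) := by
    have g1 : 0 ≤ 4 * (D / K + 3 * r) / δ + 2 := by positivity
    have g2 : 0 ≤ 16 / δ + 2 / r := by positivity
    gcongr
  have h9 : 64 * κ * (6 * w) * (18 * w / δ) * (18 / r) = 124416 * κ * (X ^ 2 / Z) := by
    have e : X ^ 2 / Z = w ^ 2 / (δ * r) := by
      rw [hw, ← hZ3]
      field_simp
    rw [e]
    field_simp
    ring
  calc 4 * ((K:ℝ) - 1) * m +
        64 * κ * (D / K + 5 * r) * (4 * (D / K + 3 * r) / δ + 2) * (16 / δ + 2 / r)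
      ≤ 16 * κ * (X ^ 2 / Z) + 124416 * κ * (X ^ 2 / Z) := by
        rw [h9] at h8
        linarith
    _ = 124432 * κ * X ^ 2 / Z := by ring

open scoped Classical in
/-- bisectors and the middle level -/
lemma bis_le (h : Noise f p (fun _ => r) κ D) {B : ℝ} (hB : 0 ≤ B)
    (H : ∫⁻ x, (edges x (n / 2 - 1) : ℝ≥0∞) ∂law f ≤ ENNReal.ofReal (2 * B)) :
    ∫⁻ x, ({L | IsBisector (univ.image x) L}.ncard : ℝ≥0∞) ∂law f ≤ ENNReal.ofReal B := by
  have h2 : 2 * ∫⁻ x, ({L | IsBisector (univ.image x) L}.ncard : ℝ≥0∞) ∂law f ≤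
      2 * ENNReal.ofReal B := by
    calc 2 * ∫⁻ x, ({L | IsBisector (univ.image x) L}.ncard : ℝ≥0∞) ∂law f
        = ∫⁻ x, 2 * ({L | IsBisector (univ.image x) L}.ncard : ℝ≥0∞) ∂law f := by
          rw [lintegral_const_mul' _ _ (by norm_num)]
      _ ≤ ∫⁻ x, (edges x (n / 2 - 1) : ℝ≥0∞) ∂law f := by
          apply lintegral_mono_ae
          filter_upwards [h.ae_good] with x hx
          exact_mod_cast bisectors_le hx.1
      _ ≤ _ := H
      _ = 2 * ENNReal.ofReal B := by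
          rw [ENNReal.ofReal_mul (by norm_num)]
          norm_num
  exact (ENNReal.mul_le_mul_iff_right (by norm_num) (by norm_num)).mp h2

open scoped Classical in
/-- the deterministic consequence -/
lemma exists_move (p : Fin n → ℝ × ℝ) (hr : 0 < r)
    (h : Noise (fun i => unif (p i) r) p (fun _ => r) (1 / 4) D) {B : ℝ} (hB : 0 ≤ B)
    (H : ∫⁻ x, (edges x (n / 2 - 1) : ℝ≥0∞) ∂law (fun i => unif (p i) r) ≤
      ENNReal.ofReal (2 * B)) :
    ∃ x : Fin n → ℝ × ℝ, Injective x ∧ GeneralPosition (univ.image x) ∧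
      (∀ i, |(x i).1 - (p i).1| ≤ r ∧ |(x i).2 - (p i).2| ≤ r) ∧
      ({L | IsBisector (univ.image x) L}.ncard : ℝ) ≤ B := by
  have := h.prob
  have hprob : IsProbabilityMeasure (law fun i => unif (p i) r) := by
    unfold law; infer_instance
  have h1 := bis_le h hB H
  have hgood : ∀ᵐ x ∂law (fun i => unif (p i) r), (Injective x ∧
    ∀ i j l : Fin n, l ≠ i → l ≠ j → x i ≠ x j → orient (x i) (x j) (x l) ≠ 0) ∧
    ∀ i, unif (p i) r (x i) ≠ 0 := h.ae_good.and h.ae_supp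
  obtain ⟨x, hx, hle⟩ := exists_notMem_null_le_lintegral h.aemeas (ae_iff.mp hgood)
  rw [Set.mem_ofPred_eq, not_not] at hx
  refine ⟨x, hx.1.1, gp_of hx.1.2, fun i => unif_supp (hx.2 i), ?_⟩
  have h2 := hle.trans h1
  rw [← ENNReal.ofReal_natCast] at h2
  exact (ENNReal.ofReal_le_ofReal_iff hB).mp h2

end

end Pool.Agent.H15.SF
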