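import Pool.Graph.R_pool_sql_team_seeded_35f281b4.K7.H26.SM.Robust

/-!
# The expected number of the `k`-edges of a given set of pairs
-/

namespace Pool.Agent.H15.SF

open MeasureTheory Finset Function
open scoped ENNReal
open Pool.Agent.K7.H26.SM

open scoped Classical in
/-- The number of the pairs `(i, j)` of `E` with `x i ≠ x j` such that exactly `k` of the points
are strictly to the left of the directed line from `x i` to `x j`. -/
noncomputable def edgesOn {n : ℕ} (E : Finset (Fin n × Fin n)) (x : Fin n → ℝ × ℝ) (k : ℕ) : ℕ :=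
  (E.filter fun ij => x ij.1 ≠ x ij.2 ∧ left x (x ij.1) (x ij.2) = k).card

open scoped Classical in
/-- the forward ones -/
noncomputable def fwdOn {n : ℕ} (E : Finset (Fin n × Fin n)) (x : Fin n → ℝ × ℝ) (k : ℕ) : ℕ :=
  (E.filter fun ij => Fwd (x ij.1) (x ij.2) ∧ left x (x ij.1) (x ij.2) = k).card

lemma measurable_fwdOn {n : ℕ} (E : Finset (Fin n × Fin n)) (k : ℕ) :
    Measurable (fun x : Fin n → ℝ × ℝ => fwdOn E x k) := by
  classical
  have e : (fun x : Fin n → ℝ × ℝ => fwdOn E x k) = fun x => ∑ ij ∈ E,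
      if Fwd (x ij.1) (x ij.2) ∧ left x (x ij.1) (x ij.2) = k then 1 else 0 := by
    funext x
    unfold fwdOn
    rw [card_filter]
  rw [e]
  apply Finset.measurable_sum
  intro ij _
  exact Measurable.ite (measurableSet_E ij.1 ij.2 k) measurable_const measurable_const

section

variable {n : ℕ} {f : Fin n → ℝ × ℝ → ℝ≥0∞} {p : Fin n → ℝ × ℝ} {r : Fin n → ℝ} {κ D : ℝ}
  (h : Noise f p r κ D)

include h

/-- the probability that a pair is a forward `k`-edge -/
lemma pair_le (i j : Fin n) (k : ℕ) :
    Measure.pi (fun i => volume.withDensity (f i))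
      {x : Fin n → ℝ × ℝ | Fwd (x i) (x j) ∧ left x (x i) (x j) = k} ≤
      ∫⁻ a in Set.Icc (-1:ℝ) 1, ∫⁻ b, G (f i) (f j) a b *
        Pk (fun i => volume.withDensity (f i)) k a b := by
  classical
  have := h.prob
  set μ : Fin n → Measure (ℝ × ℝ) := fun i => volume.withDensity (f i) with hμ
  have hπ : Measurable (uncurry (Pk μ k)) := measurable_Pk μ k
  by_cases hij : i = j
  · subst hij
    have : {x : Fin n → ℝ × ℝ | Fwd (x i) (x i) ∧ left x (x i) (x i) = k} = ∅ := by
      ext x
      simp only [Set.mem_ofPred_eq, Set.mem_empty_iff_false, iff_false]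
      rintro ⟨h1, -⟩
      exact lt_irrefl _ h1.1
    rw [this, measure_empty]
    exact zero_le
  · refine (pair_prob μ hij k).trans ?_
    rw [← pair_to_line (h.meas i) (h.meas j) hπ]
    have hm : Measurable (fun q : (ℝ × ℝ) × (ℝ × ℝ) =>
        if Fwd q.1 q.2 then Pk μ k (sl q.1 q.2) (ic q.1 q.2) else 0) := by
      have hsl : Measurable (fun q : (ℝ × ℝ) × (ℝ × ℝ) => sl q.1 q.2) := by
        unfold sl; fun_prop
      have hic : Measurable (fun q : (ℝ × ℝ) × (ℝ × ℝ) => ic q.1 q.2) := by
        unfold ic; exact (by fun_prop : Measurable fun q : (ℝ × ℝ) × (ℝ × ℝ) => q.1.2).sub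
          (hsl.mul (by fun_prop))
      exact Measurable.ite measurableSet_Fwd (hπ.comp (hsl.prodMk hic)) measurable_const
    have e4 : ∀ z : ℝ × ℝ, ∫⁻ w, (if Fwd z w then Pk μ k (sl z w) (ic z w) else 0) ∂μ j =
        ∫⁻ w, f j w * (if Fwd z w then Pk μ k (sl z w) (ic z w) else 0) := by
      intro z
      have hz : Measurable (fun w : ℝ × ℝ =>
          if Fwd z w then Pk μ k (sl z w) (ic z w) else 0) := hm.comp measurable_prodMk_left
      exact lintegral_withDensity_eq_lintegral_mul volume (h.meas j) hz
    simp_rw [e4]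
    have m2 : Measurable (fun z : ℝ × ℝ => ∫⁻ w, f j w *
        (if Fwd z w then Pk μ k (sl z w) (ic z w) else 0)) := by
      apply Measurable.lintegral_prod_right'
        (f := fun q : (ℝ × ℝ) × (ℝ × ℝ) => f j q.2 *
          (if Fwd q.1 q.2 then Pk μ k (sl q.1 q.2) (ic q.1 q.2) else 0))
      exact ((h.meas j).comp measurable_snd).mul hm
    have e5 : ∫⁻ z, (∫⁻ w, f j w * (if Fwd z w then Pk μ k (sl z w) (ic z w) else 0)) ∂μ i =
        ∫⁻ z, f i z * ∫⁻ w, f j w * (if Fwd z w then Pk μ k (sl z w) (ic z w) else 0) :=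
      lintegral_withDensity_eq_lintegral_mul volume (h.meas i) m2
    rw [e5]
    apply le_of_eq
    apply lintegral_congr
    intro z
    rw [← lintegral_const_mul]
    · apply lintegral_congr
      intro w
      rw [mul_assoc]
    · exact (h.meas j).mul (hm.comp measurable_prodMk_left)

lemma fwdOn_le (E : Finset (Fin n × Fin n)) (k : ℕ) :
    ∫⁻ x, (fwdOn E x k : ℝ≥0∞) ∂law f ≤
    ∫⁻ a in Set.Icc (-1:ℝ) 1, ∫⁻ b, (∑ e ∈ E, G (f e.1) (f e.2) a b) *
      Pk (fun i => volume.withDensity (f i)) k a b := by
  classical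
  have := h.prob
  set μ : Fin n → Measure (ℝ × ℝ) := fun i => volume.withDensity (f i) with hμ
  have hπ : Measurable (uncurry (Pk μ k)) := measurable_Pk μ k
  have e1 : ∀ x : Fin n → ℝ × ℝ, (fwdOn E x k : ℝ≥0∞) = ∑ e ∈ E,
      {x : Fin n → ℝ × ℝ | Fwd (x e.1) (x e.2) ∧ left x (x e.1) (x e.2) = k}.indicator 1 x := by
    intro x
    unfold fwdOn
    rw [card_filter]
    push_cast
    apply sum_congr rfl; intro e _
    rw [Set.indicator_apply]
    rfl
  have e2 : ∫⁻ x, (fwdOn E x k : ℝ≥0∞) ∂law f = ∑ e ∈ E, Measure.pi μ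
      {x : Fin n → ℝ × ℝ | Fwd (x e.1) (x e.2) ∧ left x (x e.1) (x e.2) = k} := by
    simp_rw [e1]
    rw [lintegral_finsetSum]
    · apply sum_congr rfl; intro e _
      rw [lintegral_indicator_one (measurableSet_E e.1 e.2 k)]
      rfl
    · intro e _
      exact measurable_one.indicator (measurableSet_E e.1 e.2 k)
  rw [e2]
  refine (sum_le_sum fun e _ => pair_le h e.1 e.2 k).trans ?_
  have hGm : ∀ i j, Measurable (uncurry fun a b => G (f i) (f j) a b * Pk μ k a b) := by
    intro i j
    exact (measurable_G (h.meas i) (h.meas j)).mul hπ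
  apply le_of_eq
  have e6 : ∀ a, ∫⁻ b, (∑ e ∈ E, G (f e.1) (f e.2) a b) * Pk μ k a b =
      ∑ e ∈ E, ∫⁻ b, G (f e.1) (f e.2) a b * Pk μ k a b := by
    intro a
    simp_rw [sum_mul]
    rw [lintegral_finsetSum]
    intro e _
    exact (hGm e.1 e.2).comp measurable_prodMk_left
  simp_rw [e6]
  rw [lintegral_finsetSum]
  intro e _
  exact (hGm e.1 e.2).lintegral_prod_right'

/-- the density of a square on a line -/
lemma LD_le (i : Fin n) (a b : ℝ) : LD (f i) a b ≤ ENNReal.ofReal (2 * κ / r i) := by
  have hr := h.rpos i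
  have hκ := h.kpos
  unfold LD
  calc ∫⁻ x, f i (x, a * x + b)
      ≤ ∫⁻ x, (Set.Icc ((p i).1 - r i) ((p i).1 + r i)).indicator
          (fun _ => ENNReal.ofReal (κ / r i ^ 2)) x := by
        apply lintegral_mono; intro x
        dsimp only
        by_cases h1 : f i (x, a * x + b) = 0
        · simp [h1]
        · have := abs_le.mp (h.supp i _ h1).1
          rw [Set.indicator_of_mem]
          · exact h.bound i _
          · simp only at this
            constructor <;> linarith [this.1, this.2]
    _ = ENNReal.ofReal (2 * κ / r i) := by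
        rw [lintegral_indicator measurableSet_Icc, lintegral_const,
          Measure.restrict_apply_univ, Real.volume_Icc, ← ENNReal.ofReal_mul (by positivity)]
        congr 1
        field_simp
        ring

/-- the weight of a pair -/
noncomputable def wt (p : Fin n → ℝ × ℝ) (r : Fin n → ℝ) (κ : ℝ) (i j : Fin n) (a : ℝ) : ℝ≥0∞ :=
  (Win p r i j).indicator (fun _ => ENNReal.ofReal
    ((|(p i).1 - (p j).1| + (r i + r j)) * (2 * κ / r j))) a

/-- the pair density from the point of view of one end -/
lemma star_le (i j : Fin n) {a : ℝ} (ha : a ∈ Set.Icc (-1:ℝ) 1) (b : ℝ) :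
    G (f i) (f j) a b ≤ LD (f i) a b * wt p r κ i j a := by
  have hκ := h.kpos
  have hri := h.rpos i
  have hrj := h.rpos j
  unfold wt
  by_cases hw : a ∈ Win p r i j
  · rw [Set.indicator_of_mem hw, ENNReal.ofReal_mul (by positivity)]
    calc G (f i) (f j) a b
        ≤ ENNReal.ofReal (|(p i).1 - (p j).1| + (r i + r j)) * (LD (f i) a b * LD (f j) a b) := by
          unfold G LD
          calc ∫⁻ x₁, ∫⁻ x₂, f i (x₁, a * x₁ + b) * f j (x₂, a * x₂ + b) *
                ENNReal.ofReal (x₂ - x₁)
              ≤ ∫⁻ x₁, ∫⁻ x₂, ENNReal.ofReal (|(p i).1 - (p j).1| + (r i + r j)) *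
                (f i (x₁, a * x₁ + b) * f j (x₂, a * x₂ + b)) := by
                apply lintegral_mono; intro x₁
                apply lintegral_mono; intro x₂
                dsimp only
                by_cases h1 : f i (x₁, a * x₁ + b) = 0
                · simp [h1]
                by_cases h2 : f j (x₂, a * x₂ + b) = 0
                · simp [h2]
                rw [mul_comm]
                apply mul_le_mul_left
                exact ENNReal.ofReal_le_ofReal (h.dx h1 h2)
            _ = ENNReal.ofReal (|(p i).1 - (p j).1| + (r i + r j)) *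
                ((∫⁻ x, f i (x, a * x + b)) * ∫⁻ x, f j (x, a * x + b)) := by
                have m1 : Measurable (fun x : ℝ => f i (x, a * x + b)) :=
                  (h.meas i).comp (by fun_prop)
                have m2 : Measurable (fun x : ℝ => f j (x, a * x + b)) :=
                  (h.meas j).comp (by fun_prop)
                have e1 : ∀ x₁ : ℝ, ∫⁻ x₂, ENNReal.ofReal (|(p i).1 - (p j).1| + (r i + r j)) *
                    (f i (x₁, a * x₁ + b) * f j (x₂, a * x₂ + b)) =
                    ENNReal.ofReal (|(p i).1 - (p j).1| + (r i + r j)) *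
                    (f i (x₁, a * x₁ + b) * ∫⁻ x, f j (x, a * x + b)) := by
                  intro x₁
                  rw [lintegral_const_mul _ (m2.const_mul _), lintegral_const_mul _ m2]
                simp_rw [e1]
                rw [lintegral_const_mul _ (m1.mul_const _), lintegral_mul_const _ m1]
      _ ≤ ENNReal.ofReal (|(p i).1 - (p j).1| + (r i + r j)) *
            (LD (f i) a b * ENNReal.ofReal (2 * κ / r j)) :=
          mul_le_mul_right (mul_le_mul_right (LD_le h j a b) _) _
      _ = _ := by ring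
  · rw [Set.indicator_of_notMem hw, mul_zero]
    have h1 := h.G_le' i j ha b
    rw [Set.indicator_of_notMem hw] at h1
    exact h1

/-- the main inequality: `S` bounds the sums of the weights of the pairs of `E` that start at one
index -/
lemma fwdOn_star (E : Finset (Fin n × Fin n)) (k : ℕ) {S : ℝ → ℝ≥0∞} (hSm : Measurable S)
    (hS : ∀ a ∈ Set.Icc (-1:ℝ) 1, ∀ i, ∑ j ∈ univ.filter (fun j => (i, j) ∈ E), wt p r κ i j a ≤ S a) :
    ∫⁻ x, (fwdOn E x k : ℝ≥0∞) ∂law f ≤ 4 * ∫⁻ a in Set.Icc (-1:ℝ) 1, S a := by
  classical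
  have := h.prob
  refine (fwdOn_le h E k).trans ?_
  rw [← lintegral_const_mul _ hSm]
  apply setLIntegral_mono' measurableSet_Icc
  intro a ha
  set μ : Fin n → Measure (ℝ × ℝ) := fun i => volume.withDensity (f i) with hμ
  have hπ : Measurable (fun b => Pk μ k a b) := (measurable_Pk μ k).comp measurable_prodMk_left
  have hTD : Measurable (fun b => TD f a b) := h.measurable_TD.comp measurable_prodMk_left
  have key : ∀ b, ∑ e ∈ E, G (f e.1) (f e.2) a b ≤ TD f a b * S a := by
    intro b
    calc ∑ e ∈ E, G (f e.1) (f e.2) a b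
        = ∑ i, ∑ j, if (i, j) ∈ E then G (f i) (f j) a b else 0 := by
          rw [← sum_product' (s := univ) (t := univ)
            (f := fun i j => if (i, j) ∈ E then G (f i) (f j) a b else 0), univ_product_univ]
          rw [← sum_filter]
          apply sum_congr _ fun _ _ => rfl
          ext e
          simp
      _ = ∑ i, ∑ j ∈ univ.filter (fun j => (i, j) ∈ E), G (f i) (f j) a b := by
          apply sum_congr rfl; intro i _
          rw [sum_filter]
      _ ≤ ∑ i, LD (f i) a b * S a := by
          apply sum_le_sum; intro i _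
          refine le_trans (sum_le_sum fun j _ => star_le h i j ha b) ?_
          rw [← mul_sum]
          exact mul_le_mul_right (hS a ha i) _
      _ = TD f a b * S a := by rw [← sum_mul]; rfl
  calc ∫⁻ b, (∑ e ∈ E, G (f e.1) (f e.2) a b) * Pk μ k a b
      ≤ ∫⁻ b, S a * (TD f a b * Pk μ k a b) := by
        apply lintegral_mono; intro b
        dsimp only
        calc (∑ e ∈ E, G (f e.1) (f e.2) a b) * Pk μ k a b ≤ (TD f a b * S a) * Pk μ k a b :=
              mul_le_mul_left (key b) _
          _ = S a * (TD f a b * Pk μ k a b) := by ring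
    _ = S a * ∫⁻ b, TD f a b * Pk μ k a b := by
        have hm : Measurable (fun b => TD f a b * Pk μ k a b) := hTD.mul hπ
        rw [lintegral_const_mul _ hm]
    _ ≤ S a * 4 := mul_le_mul_right (h.rank k a) _
    _ = 4 * S a := mul_comm _ _

end

end Pool.Agent.H15.SF
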