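import Pool.Agent.H15.SF.Pairs

namespace Pool.Agent.H15.SF

open MeasureTheory Finset Function
open scoped ENNReal
open Pool.Agent.K7.H26.SM

lemma edgesOn_le {n : ℕ} (E : Finset (Fin n × Fin n)) (x : Fin n → ℝ × ℝ) (k : ℕ) :
    edgesOn E x k ≤ fwdOn E x k + fwdOn E (fun i => R (x i)) k +
      fwdOn E (fun i => R (R (x i))) k + fwdOn E (fun i => R (R (R (x i)))) k := by
  classical
  unfold edgesOn fwdOn
  refine le_trans (card_le_card ?_) ((card_union_le _ _).trans (add_le_add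
    ((card_union_le _ _).trans (add_le_add (card_union_le _ _) le_rfl)) le_rfl))
  intro ij hij
  rw [mem_filter] at hij
  obtain ⟨hE, hne, hk⟩ := hij
  simp only [mem_union, mem_filter]
  have e1 : left (fun i => R (x i)) (R (x ij.1)) (R (x ij.2)) = k := by rw [left_R, hk]
  have e2 : left (fun i => R (R (x i))) (R (R (x ij.1))) (R (R (x ij.2))) = k := by
    rw [left_R (fun i => R (x i)), e1]
  have e3 : left (fun i => R (R (R (x i)))) (R (R (R (x ij.1)))) (R (R (R (x ij.2)))) = k := by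
    rw [left_R (fun i => R (R (x i))), e2]
  rcases fwd_cases hne with h | h | h | h
  · exact Or.inl (Or.inl (Or.inl ⟨hE, h, hk⟩))
  · exact Or.inl (Or.inl (Or.inr ⟨hE, h, e1⟩))
  · exact Or.inl (Or.inr ⟨hE, h, e2⟩)
  · exact Or.inr ⟨hE, h, e3⟩

lemma measurable_edgesOn {n : ℕ} (E : Finset (Fin n × Fin n)) (k : ℕ) :
    Measurable (fun x : Fin n → ℝ × ℝ => edgesOn E x k) := by
  classical
  have e : (fun x : Fin n → ℝ × ℝ => edgesOn E x k) = fun x => ∑ ij ∈ E,
      if x ij.1 ≠ x ij.2 ∧ left x (x ij.1) (x ij.2) = k then 1 else 0 := by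
    funext x
    unfold edgesOn
    rw [card_filter]
  rw [e]
  apply Finset.measurable_sum
  intro ij _
  apply Measurable.ite _ measurable_const measurable_const
  apply MeasurableSet.inter
  · exact (measurableSet_eq_fun (measurable_pi_apply ij.1) (measurable_pi_apply ij.2)).compl
  · exact (measurable_left (n := n)).comp
      (g := _) (f := fun x : Fin n → ℝ × ℝ => (x ij.1, x ij.2, x)) (by fun_prop)
      (measurableSet_singleton k)

section

variable {n : ℕ} {f : Fin n → ℝ × ℝ → ℝ≥0∞} {p : Fin n → ℝ × ℝ} {r : Fin n → ℝ} {κ D : ℝ}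

/-- the four rotations -/
lemma four {F : (Fin n → ℝ × ℝ) → ℝ≥0∞} (hF : Measurable F) {Q : (Fin n → ℝ × ℝ) → Prop}
    (hQ : ∀ p, Q p → Q fun i => R (p i)) {B : ℝ≥0∞}
    (hB : ∀ (f : Fin n → ℝ × ℝ → ℝ≥0∞) (p : Fin n → ℝ × ℝ), Noise f p r κ D → Q p →
      ∫⁻ x, F x ∂law f ≤ B) (h : Noise f p r κ D) (hq : Q p) :
    ∫⁻ x, (F x + F (fun i => R (x i)) + F (fun i => R (R (x i))) +
      F (fun i => R (R (R (x i))))) ∂law f ≤ 4 * B := by
  have hR : Measurable (fun x : Fin n → ℝ × ℝ => fun i => R (x i)) :=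
    measurable_pi_iff.mpr fun i => measurable_R.comp (measurable_pi_apply i)
  have hm1 : Measurable (fun x : Fin n → ℝ × ℝ => F (fun i => R (x i))) := hF.comp hR
  have hm2 : Measurable (fun x : Fin n → ℝ × ℝ => F (fun i => R (R (x i)))) := hm1.comp hR
  have hm3 : Measurable (fun x : Fin n → ℝ × ℝ => F (fun i => R (R (R (x i))))) := hm2.comp hR
  have b0 := hB f p h hq
  have b1 := hB _ _ h.rot (hQ _ hq)
  have b2 := hB _ _ h.rot.rot (hQ _ (hQ _ hq))
  have b3 := hB _ _ h.rot.rot.rot (hQ _ (hQ _ (hQ _ hq)))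
  rw [← law_rot h hF] at b1
  rw [← law_rot h.rot hF, ← law_rot h hm1] at b2
  rw [← law_rot h.rot.rot hF, ← law_rot h.rot hm1, ← law_rot h hm2] at b3
  have s1 : Measurable (fun x : Fin n → ℝ × ℝ => F x + F (fun i => R (x i))) := hF.add hm1
  have s2 : Measurable (fun x : Fin n → ℝ × ℝ => F x + F (fun i => R (x i)) +
    F (fun i => R (R (x i)))) := s1.add hm2
  rw [lintegral_add_left s2, lintegral_add_left s1, lintegral_add_left hF]
  calc _ ≤ B + B + B + B := add_le_add (add_le_add (add_le_add b0 b1) b2) b3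
    _ = 4 * B := by ring

lemma edgesOn_four (E : Finset (Fin n × Fin n)) (k : ℕ) {Q : (Fin n → ℝ × ℝ) → Prop}
    (hQ : ∀ p, Q p → Q fun i => R (p i)) {B : ℝ≥0∞}
    (hB : ∀ (f : Fin n → ℝ × ℝ → ℝ≥0∞) (p : Fin n → ℝ × ℝ), Noise f p r κ D → Q p →
      ∫⁻ x, (fwdOn E x k : ℝ≥0∞) ∂law f ≤ B) (h : Noise f p r κ D) (hq : Q p) :
    ∫⁻ x, (edgesOn E x k : ℝ≥0∞) ∂law f ≤ 4 * B := by
  refine le_trans (lintegral_mono fun x => ?_) (four
    (F := fun x : Fin n → ℝ × ℝ => (fwdOn E x k : ℝ≥0∞))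
    (measurable_from_top.comp (measurable_fwdOn E k)) hQ hB h hq)
  have := edgesOn_le E x k
  dsimp only
  exact_mod_cast this

lemma edges_four (k : ℕ) {Q : (Fin n → ℝ × ℝ) → Prop}
    (hQ : ∀ p, Q p → Q fun i => R (p i)) {B : ℝ≥0∞}
    (hB : ∀ (f : Fin n → ℝ × ℝ → ℝ≥0∞) (p : Fin n → ℝ × ℝ), Noise f p r κ D → Q p →
      ∫⁻ x, (edges0 x k : ℝ≥0∞) ∂law f ≤ B) (h : Noise f p r κ D) (hq : Q p) :
    ∫⁻ x, (edges x k : ℝ≥0∞) ∂law f ≤ 4 * B := by
  refine le_trans (lintegral_mono fun x => ?_) (four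
    (F := fun x : Fin n → ℝ × ℝ => (edges0 x k : ℝ≥0∞))
    (measurable_from_top.comp (measurable_edges0 k)) hQ hB h hq)
  have := edges_le x k
  dsimp only
  exact_mod_cast this

/-- cuts: the long forward edges -/
lemma edges0_near {x : Fin n → ℝ × ℝ}
    (hgp : ∀ i j l : Fin n, l ≠ i → l ≠ j → x i ≠ x j → orient (x i) (x j) (x l) ≠ 0)
    {D w : ℝ} (hw : 0 < w) {K : ℕ} (hK : D < K * w) (hx : ∀ i j, |(x i).1 - (x j).1| ≤ D)
    {E : Finset (Fin n × Fin n)}
    (hE : ∀ i j, Fwd (x i) (x j) → (x j).1 - (x i).1 < w → (i, j) ∈ E) (k : ℕ) :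
    edges0 x k ≤ (K - 1) * (k + 1) + fwdOn E x k := by
  classical
  rcases Nat.eq_zero_or_pos n with hn | hn
  · subst hn
    have : edges0 x k = 0 := by unfold edges0; simp
    rw [this]
    exact Nat.zero_le _
  have : Nonempty (Fin n) := ⟨⟨0, hn⟩⟩
  obtain ⟨i0, hi0⟩ := Finite.exists_min (fun i => (x i).1)
  set A := (x i0).1 with hA
  set T : ℕ → Finset (Fin n × Fin n) := fun t => univ.filter fun e : Fin n × Fin n =>
    (x e.1).1 < A + t * w ∧ A + t * w ≤ (x e.2).1 ∧ left x (x e.1) (x e.2) = k with hT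
  have hTc : ∀ t, (T t).card ≤ k + 1 := fun t => cut_edges hgp (A + t * w) k
  have hsub : (univ.filter fun ij : Fin n × Fin n =>
      Fwd (x ij.1) (x ij.2) ∧ left x (x ij.1) (x ij.2) = k) ⊆
      (Finset.Ico 1 K).biUnion T ∪ E.filter (fun ij =>
        Fwd (x ij.1) (x ij.2) ∧ left x (x ij.1) (x ij.2) = k) := by
    intro e he
    rw [mem_filter] at he
    obtain ⟨-, hf, hl⟩ := he
    rw [mem_union, mem_biUnion]
    by_cases hc : (x e.2).1 - (x e.1).1 < w
    · right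
      rw [mem_filter]
      exact ⟨hE e.1 e.2 hf hc, hf, hl⟩
    · left
      push Not at hc
      have h0 : 0 ≤ (x e.1).1 - A := sub_nonneg.mpr (hi0 e.1)
      set t := ⌊((x e.1).1 - A) / w⌋₊ + 1 with ht
      have h1 : ((x e.1).1 - A) / w < t := by
        rw [ht]; push_cast; exact Nat.lt_floor_add_one _
      have h2 : ((t:ℝ) - 1) ≤ ((x e.1).1 - A) / w := by
        rw [ht]; push_cast
        have := Nat.floor_le (div_nonneg h0 hw.le)
        linarith
      rw [div_lt_iff₀ hw] at h1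
      rw [le_div_iff₀ hw] at h2
      have h3 : A + t * w ≤ (x e.2).1 := by nlinarith
      have h4 : (x e.2).1 - A ≤ D := (le_abs_self _).trans (hx e.2 i0)
      have h5 : (t:ℝ) * w < K * w := by linarith
      have h6 : (t:ℝ) < K := lt_of_mul_lt_mul_right h5 hw.le
      have h7 : t < K := by exact_mod_cast h6
      refine ⟨t, Finset.mem_Ico.mpr ⟨by omega, h7⟩, ?_⟩
      rw [hT, mem_filter]
      exact ⟨mem_univ _, by linarith, h3, hl⟩
  have h1 : edges0 x k ≤ ((Finset.Ico 1 K).biUnion T ∪ E.filter (fun ij =>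
        Fwd (x ij.1) (x ij.2) ∧ left x (x ij.1) (x ij.2) = k)).card := by
    unfold edges0
    exact card_le_card hsub
  refine h1.trans ((card_union_le _ _).trans (Nat.add_le_add ?_ (le_of_eq rfl)))
  refine card_biUnion_le.trans ((sum_le_sum fun t _ => hTc t).trans ?_)
  rw [sum_const, Nat.card_Ico, smul_eq_mul]

lemma abs_fst_le (h : Noise f p r κ D) {x : Fin n → ℝ × ℝ} (hx : ∀ i, f i (x i) ≠ 0) (i j : Fin n) :
    |(x i).1 - (x j).1| ≤ D := by
  have h1 := (h.supp i _ (hx i)).1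
  have h2 := (h.supp j _ (hx j)).1
  have h3 := (h.diam i j).1
  have e : (x i).1 - (x j).1 = ((x i).1 - (p i).1) - ((x j).1 - (p j).1) +
    ((p i).1 - (p j).1) := by ring
  rw [e]
  refine (abs_add_le _ _).trans ?_
  have := abs_sub ((x i).1 - (p i).1) ((x j).1 - (p j).1)
  linarith

/-- the expected number of forward `k`-edges by the near pairs -/
lemma edges0_E (h : Noise f p r κ D) {w ρ : ℝ} (hw : 0 < w) {K : ℕ} (hK : D < K * w)
    (hρ : ∀ i, r i ≤ ρ) {E : Finset (Fin n × Fin n)}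
    (hE : ∀ i j, |(p j).1 - (p i).1| ≤ w + 2 * ρ → |(p j).2 - (p i).2| ≤ w + 2 * ρ → (i, j) ∈ E)
    (k : ℕ) :
    ∫⁻ x, (edges0 x k : ℝ≥0∞) ∂law f ≤
      (((K - 1) * (k + 1) : ℕ) : ℝ≥0∞) + ∫⁻ x, (fwdOn E x k : ℝ≥0∞) ∂law f := by
  have := h.prob
  have hprob : IsProbabilityMeasure (law f) := by unfold law; infer_instance
  have hpt : ∀ᵐ x ∂law f, (edges0 x k : ℝ≥0∞) ≤ (((K - 1) * (k + 1) : ℕ) : ℝ≥0∞) +
      (fwdOn E x k : ℝ≥0∞) := by
    filter_upwards [h.ae_good, h.ae_supp] with x hx hs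
    have h1 := edges0_near hx.2 hw hK (abs_fst_le h hs) (E := E) (fun i j hf hlt => by
      obtain ⟨f1, f2⟩ := hf
      obtain ⟨a1, a2⟩ := h.supp i _ (hs i)
      obtain ⟨b1, b2⟩ := h.supp j _ (hs j)
      have ri := hρ i
      have rj := hρ j
      rw [abs_le] at a1 a2 b1 b2 f2
      apply hE i j
      · rw [abs_le]; constructor <;> linarith [a1.1, a1.2, b1.1, b1.2]
      · rw [abs_le]; constructor <;> linarith [a2.1, a2.2, b2.1, b2.2, f2.1, f2.2]) k
    exact_mod_cast h1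
  refine (lintegral_mono_ae hpt).trans ?_
  rw [lintegral_add_left measurable_const, lintegral_const, measure_univ, mul_one]

end

end Pool.Agent.H15.SF
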