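import Pool.Agent.H15.SF.Win

namespace Pool.Agent.H15.SF

open MeasureTheory Finset Function
open scoped ENNReal
open Pool.Agent.K7.H26.SM

/-- counting with a grid -/
lemma card_le_grid {ι : Type*} (J : Finset ι) (u v : ι → ℝ) {X Y : ℝ} (hX : 0 ≤ X) (hY : 0 ≤ Y)
    (hu : ∀ j ∈ J, |u j| ≤ X) (hv : ∀ j ∈ J, |v j| ≤ Y)
    (hinj : ∀ j ∈ J, ∀ j' ∈ J, |u j - u j'| < 1 → |v j - v j'| < 1 → j = j') :
    (J.card : ℝ) ≤ (2 * X + 2) * (2 * Y + 2) := by
  have hcard : ∀ {X : ℝ}, 0 ≤ X → ((Finset.Icc ⌊-X⌋ ⌊X⌋).card : ℝ) ≤ 2 * X + 2 := by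
    intro X hX
    rw [Int.card_Icc]
    have h1 : ⌊-X⌋ ≤ ⌊X⌋ := Int.floor_le_floor (by linarith)
    have h2 : ((⌊X⌋ + 1 - ⌊-X⌋).toNat : ℝ) = ((⌊X⌋ + 1 - ⌊-X⌋ : ℤ) : ℝ) := by
      have : ((⌊X⌋ + 1 - ⌊-X⌋).toNat : ℤ) = ⌊X⌋ + 1 - ⌊-X⌋ := Int.toNat_of_nonneg (by omega)
      exact_mod_cast congrArg (Int.cast : ℤ → ℝ) this
    rw [h2]
    push_cast
    have h3 := Int.floor_le X
    have h4 := Int.lt_floor_add_one (-X)
    linarith
  have hmem : ∀ {X t : ℝ}, |t| ≤ X → ⌊t⌋ ∈ Finset.Icc ⌊-X⌋ ⌊X⌋ := by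
    intro X t ht
    rw [abs_le] at ht
    rw [Finset.mem_Icc]
    exact ⟨Int.floor_le_floor ht.1, Int.floor_le_floor ht.2⟩
  have h1 : J.card ≤ ((Finset.Icc ⌊-X⌋ ⌊X⌋) ×ˢ (Finset.Icc ⌊-Y⌋ ⌊Y⌋)).card := by
    apply card_le_card_of_injOn (fun j => (⌊u j⌋, ⌊v j⌋))
    · intro j hj
      rw [mem_coe, mem_product]
      exact ⟨hmem (hu j hj), hmem (hv j hj)⟩
    · intro j hj j' hj' he
      simp only [Prod.mk.injEq] at he
      exact hinj j hj j' hj' (Int.abs_sub_lt_one_of_floor_eq_floor he.1)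
        (Int.abs_sub_lt_one_of_floor_eq_floor he.2)
  rw [card_product] at h1
  have h2 : (J.card : ℝ) ≤ ((Finset.Icc ⌊-X⌋ ⌊X⌋).card : ℝ) * ((Finset.Icc ⌊-Y⌋ ⌊Y⌋).card : ℝ) := by
    exact_mod_cast h1
  exact h2.trans (mul_le_mul (hcard hX) (hcard hY) (Nat.cast_nonneg _) (by linarith))

section

variable {n : ℕ} {f : Fin n → ℝ × ℝ → ℝ≥0∞} {p : Fin n → ℝ × ℝ} {r κ D : ℝ}

/-- forward `k`-edges of near pairs of separated squares -/
lemma fwd_sep (h : Noise f p (fun _ => r) κ D) (hr : 0 < r) {δ : ℝ} (hδ : 0 < δ)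
    (hsep : ∀ i j, i ≠ j → δ ≤ |(p i).1 - (p j).1| ∨ δ ≤ |(p i).2 - (p j).2|) {W : ℝ}
    (hW : 0 ≤ W) {E : Finset (Fin n × Fin n)}
    (hE : ∀ i j, (i, j) ∈ E → |(p j).1 - (p i).1| ≤ W) (k : ℕ) :
    ∫⁻ x, (fwdOn E x k : ℝ≥0∞) ∂law f ≤
      ENNReal.ofReal (8 * ((W + 2 * r) * (2 * κ / r)) * ((4 * W / δ + 2) * (16 * r / δ + 2))) := by
  classical
  have hκ := h.kpos
  set ν : ℝ := (4 * W / δ + 2) * (16 * r / δ + 2) with hν
  have hν0 : 0 ≤ ν := by positivity
  set S : ℝ → ℝ≥0∞ := fun _ => ENNReal.ofReal ((W + 2 * r) * (2 * κ / r) * ν) with hS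
  have hS1 : ∀ a ∈ Set.Icc (-1:ℝ) 1, ∀ i,
      ∑ j ∈ univ.filter (fun j => (i, j) ∈ E), wt p (fun _ => r) κ i j a ≤ S a := by
    intro a ha i
    have habs : |a| ≤ 1 := abs_le.mpr ha
    set J : Finset (Fin n) := univ.filter (fun j => (i, j) ∈ E ∧ a ∈ Win p (fun _ => r) i j) with hJ
    have hc : (J.card : ℝ) ≤ ν := by
      have h1 := card_le_grid J (fun j => 2 * ((p j).1 - (p i).1) / δ)
        (fun j => 2 * (((p j).2 - (p i).2) - a * ((p j).1 - (p i).1)) / δ)
        (X := 2 * W / δ) (Y := 8 * r / δ) (by positivity) (by positivity) (fun j hj => by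
          rw [hJ, mem_filter] at hj
          have := hE i j hj.2.1
          rw [abs_div, abs_mul, abs_of_pos hδ, abs_of_pos (by norm_num : (0:ℝ) < 2)]
          gcongr) (fun j hj => by
          rw [hJ, mem_filter] at hj
          have h2 := hj.2.2
          unfold Win at h2
          rw [Set.mem_ofPred_eq] at h2
          rw [abs_div, abs_mul, abs_of_pos hδ, abs_of_pos (by norm_num : (0:ℝ) < 2)]
          have e : |((p j).2 - (p i).2) - a * ((p j).1 - (p i).1)| =
              |((p i).2 - (p j).2) - a * ((p i).1 - (p j).1)| := by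
            rw [← abs_neg]; congr 1; ring
          rw [e]
          have : 2 * |((p i).2 - (p j).2) - a * ((p i).1 - (p j).1)| ≤ 8 * r := by linarith
          gcongr) (fun j _ j' _ a1 a2 => by
          by_contra hne
          have e1 : 2 * ((p j).1 - (p i).1) / δ - 2 * ((p j').1 - (p i).1) / δ =
              2 * ((p j).1 - (p j').1) / δ := by ring
          have e2 : 2 * (((p j).2 - (p i).2) - a * ((p j).1 - (p i).1)) / δ -
              2 * (((p j').2 - (p i).2) - a * ((p j').1 - (p i).1)) / δ =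
              2 * (((p j).2 - (p j').2) - a * ((p j).1 - (p j').1)) / δ := by ring
          rw [e1, abs_div, abs_mul, abs_of_pos hδ, abs_of_pos (by norm_num : (0:ℝ) < 2),
            div_lt_one hδ] at a1
          rw [e2, abs_div, abs_mul, abs_of_pos hδ, abs_of_pos (by norm_num : (0:ℝ) < 2),
            div_lt_one hδ] at a2
          have a3 : |(p j).2 - (p j').2| ≤ |((p j).2 - (p j').2) - a * ((p j).1 - (p j').1)| +
              |a * ((p j).1 - (p j').1)| := by
            have e3 : (p j).2 - (p j').2 = (((p j).2 - (p j').2) - a * ((p j).1 - (p j').1)) +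
              a * ((p j).1 - (p j').1) := by ring
            conv_lhs => rw [e3]
            exact abs_add_le _ _
          have a4 : |a * ((p j).1 - (p j').1)| ≤ |(p j).1 - (p j').1| := by
            rw [abs_mul]
            exact mul_le_of_le_one_left (abs_nonneg _) habs
          rcases hsep j j' hne with h3 | h3
          · linarith
          · linarith)
      refine h1.trans (le_of_eq ?_)
      rw [hν]
      ring
    calc ∑ j ∈ univ.filter (fun j => (i, j) ∈ E), wt p (fun _ => r) κ i j a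
        = ∑ j ∈ J, wt p (fun _ => r) κ i j a := by
          symm
          apply sum_subset
          · intro j hj
            rw [hJ, mem_filter] at hj
            rw [mem_filter]
            exact ⟨hj.1, hj.2.1⟩
          · intro j hj hj'
            rw [mem_filter] at hj
            unfold wt
            apply Set.indicator_of_notMem
            intro hw
            apply hj'
            rw [hJ, mem_filter]
            exact ⟨hj.1, hj.2, hw⟩
      _ ≤ ∑ j ∈ J, ENNReal.ofReal ((W + 2 * r) * (2 * κ / r)) := by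
          apply sum_le_sum
          intro j hj
          rw [hJ, mem_filter] at hj
          have h1 := hE i j hj.2.1
          rw [abs_sub_comm] at h1
          unfold wt
          rw [Set.indicator_of_mem hj.2.2]
          apply ENNReal.ofReal_le_ofReal
          have : |(p i).1 - (p j).1| + (r + r) ≤ W + 2 * r := by linarith
          exact mul_le_mul_of_nonneg_right this (by positivity)
      _ ≤ S a := by
          rw [sum_const, nsmul_eq_mul, hS]
          dsimp only
          rw [← ENNReal.ofReal_natCast, ← ENNReal.ofReal_mul (Nat.cast_nonneg _)]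
          apply ENNReal.ofReal_le_ofReal
          rw [mul_comm]
          exact mul_le_mul_of_nonneg_left hc (by positivity)
  have hSm : Measurable S := measurable_const
  refine (fwdOn_star h E k hSm hS1).trans (le_of_eq ?_)
  rw [hS]
  rw [lintegral_const, Measure.restrict_apply_univ, Real.volume_Icc,
    show (4:ℝ≥0∞) = ENNReal.ofReal 4 by norm_num, ← ENNReal.ofReal_mul (by positivity),
    ← ENNReal.ofReal_mul (by positivity)]
  congr 1
  ring

/-- `k`-edges of separated squares -/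
theorem edges_sepK (h : Noise f p (fun _ => r) κ D) (hr : 0 < r) {δ : ℝ} (hδ : 0 < δ)
    (hsep : ∀ i j, i ≠ j → δ ≤ |(p i).1 - (p j).1| ∨ δ ≤ |(p i).2 - (p j).2|) {K : ℕ} (hK : 0 < K)
    (k : ℕ) :
    ∫⁻ x, (edges x k : ℝ≥0∞) ∂law f ≤
      ENNReal.ofReal (4 * (K - 1) * (min (k + 1) (n - 1 - k) : ℕ) +
        64 * κ * (D / K + 5 * r) * (4 * (D / K + 3 * r) / δ + 2) * (16 / δ + 2 / r)) := by
  have hκ := h.kpos
  have hKR : (0:ℝ) < K := by exact_mod_cast hK
  rcases Nat.eq_zero_or_pos n with hn | hn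
  · have : ∀ x : Fin n → ℝ × ℝ, (edges x k : ℝ≥0∞) = 0 := fun x => by
      rw [edges_of_zero hn]; simp
    simp [this]
  have hD := D_pos h hr hn
  apply edges_min h
  intro k
  have hmain := edges_E h hr hn hK
    (Q := fun p => ∀ i j, i ≠ j → δ ≤ |(p i).1 - (p j).1| ∨ δ ≤ |(p i).2 - (p j).2|)
    (fun p hp i j hij => by
      simp only [R]
      rcases hp i j hij with h1 | h1
      · right; exact h1
      · left
        rw [← abs_neg]
        convert h1 using 2
        ring)
    (B := 8 * ((D / K + 3 * r + 2 * r) * (2 * κ / r)) *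
      ((4 * (D / K + 3 * r) / δ + 2) * (16 * r / δ + 2))) (by positivity) k
    (fun f p h' hq E hE => fwd_sep h' hr hδ hq (by positivity) (fun i j hij => (hE i j hij).1) k)
    hsep
  refine hmain.trans (le_of_eq ?_)
  congr 1
  field_simp
  ring

end

end Pool.Agent.H15.SF
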