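import Pool.Agent.H15.SF.Rot4

namespace Pool.Agent.H15.SF

open MeasureTheory Finset Function
open scoped ENNReal
open Pool.Agent.K7.H26.SM

/-- the slopes of a vector, up to `4 r` -/
def Wv (r : ℝ) (v : ℝ × ℝ) : Set ℝ := {a | |v.2 - a * v.1| ≤ 2 * (r + r)}

lemma measurableSet_Wv (r : ℝ) (v : ℝ × ℝ) : MeasurableSet (Wv r v) := by
  unfold Wv
  exact measurableSet_le (f := fun a : ℝ => |v.2 - a * v.1|)
    (g := fun _ => 2 * (r + r)) (by fun_prop) (by fun_prop)

/-- the weight of a vector -/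
noncomputable def wv (r κ : ℝ) (v : ℝ × ℝ) (a : ℝ) : ℝ≥0∞ :=
  (Wv r v).indicator (fun _ => ENNReal.ofReal ((|v.1| + (r + r)) * (2 * κ / r))) a

lemma measurable_wv (r κ : ℝ) (v : ℝ × ℝ) : Measurable (wv r κ v) := by
  unfold wv
  exact measurable_const.indicator (measurableSet_Wv r v)

lemma wv_int {r κ : ℝ} (hr : 0 < r) (hκ : 0 < κ) (v : ℝ × ℝ) :
    ∫⁻ a in Set.Icc (-1:ℝ) 1, wv r κ v a ≤ ENNReal.ofReal (32 * κ) := by
  unfold wv
  rw [lintegral_indicator (measurableSet_Wv r v), lintegral_const, Measure.restrict_restrict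
    (measurableSet_Wv r v), Measure.restrict_apply_univ]
  by_cases hc : |v.1| ≤ r + r
  · have h1 : volume (Wv r v ∩ Set.Icc (-1:ℝ) 1) ≤ ENNReal.ofReal 2 := by
      refine (measure_mono Set.inter_subset_right).trans ?_
      rw [Real.volume_Icc]
      norm_num
    refine (mul_le_mul_right h1 _).trans ?_
    rw [← ENNReal.ofReal_mul (by positivity)]
    apply ENNReal.ofReal_le_ofReal
    calc (|v.1| + (r + r)) * (2 * κ / r) * 2
        ≤ ((r + r) + (r + r)) * (2 * κ / r) * 2 := by gcongr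
      _ = 16 * κ := by field_simp; ring
      _ ≤ 32 * κ := by linarith
  · push Not at hc
    have hξ0 : 0 < |v.1| := lt_trans (by linarith) hc
    have hξne : v.1 ≠ 0 := abs_pos.mp hξ0
    have h1 : volume (Wv r v ∩ Set.Icc (-1:ℝ) 1) ≤ ENNReal.ofReal (8 * r / |v.1|) := by
      have hsub : Wv r v ⊆ Set.Icc (v.2 / v.1 - 4 * r / |v.1|) (v.2 / v.1 + 4 * r / |v.1|) := by
        intro a ha
        unfold Wv at ha
        rw [Set.mem_ofPred_eq] at ha
        have e : |v.2 - a * v.1| = |v.2 / v.1 - a| * |v.1| := by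
          rw [← abs_mul]
          congr 1
          field_simp
        rw [e] at ha
        have h3 : |v.2 / v.1 - a| ≤ 4 * r / |v.1| := by
          rw [le_div_iff₀ hξ0]
          linarith
        have h4 := abs_le.mp h3
        constructor <;> linarith [h4.1, h4.2]
      refine (measure_mono (Set.inter_subset_left.trans hsub)).trans ?_
      rw [Real.volume_Icc]
      apply ENNReal.ofReal_le_ofReal
      apply le_of_eq
      ring
    refine (mul_le_mul_right h1 _).trans ?_
    rw [← ENNReal.ofReal_mul (by positivity)]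
    apply ENNReal.ofReal_le_ofReal
    calc (|v.1| + (r + r)) * (2 * κ / r) * (8 * r / |v.1|)
        ≤ (|v.1| + |v.1|) * (2 * κ / r) * (8 * r / |v.1|) := by gcongr
      _ = 32 * κ := by field_simp; ring

section

variable {n : ℕ} {f : Fin n → ℝ × ℝ → ℝ≥0∞} {p : Fin n → ℝ × ℝ} {r κ D : ℝ}

lemma wt_eq (i j : Fin n) (a : ℝ) : wt p (fun _ => r) κ i j a = wv r κ (p j - p i) a := by
  unfold wt wv Win Wv
  have e1 : |(p j - p i).1| = |(p i).1 - (p j).1| := by
    rw [Prod.fst_sub, abs_sub_comm]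
  have e2 : ∀ a : ℝ, |(p j - p i).2 - a * (p j - p i).1| =
      |((p i).2 - (p j).2) - a * ((p i).1 - (p j).1)| := by
    intro a
    rw [Prod.fst_sub, Prod.snd_sub, ← abs_neg]
    congr 1
    ring
  simp only [e1, e2]

open scoped Classical in
/-- forward `k`-edges in the classes of the vectors of `V` -/
lemma fwd_V (h : Noise f p (fun _ => r) κ D) (hr : 0 < r) {μ : ℕ}
    (hμ : ∀ z, (univ.filter fun j => p j = z).card ≤ μ) {E : Finset (Fin n × Fin n)}
    {V : Finset (ℝ × ℝ)} (hV : ∀ i j, (i, j) ∈ E → p j - p i ∈ V) (k : ℕ) :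
    ∫⁻ x, (fwdOn E x k : ℝ≥0∞) ∂law f ≤ ENNReal.ofReal (128 * κ * μ * V.card) := by
  have hκ := h.kpos
  set S : ℝ → ℝ≥0∞ := fun a => μ * ∑ v ∈ V, wv r κ v a with hS
  have hsm : Measurable (fun a => ∑ v ∈ V, wv r κ v a) :=
    Finset.measurable_sum _ fun v _ => measurable_wv r κ v
  have hSm : Measurable S := hsm.const_mul _
  have hS1 : ∀ a ∈ Set.Icc (-1:ℝ) 1, ∀ i,
      ∑ j ∈ univ.filter (fun j => (i, j) ∈ E), wt p (fun _ => r) κ i j a ≤ S a := by
    intro a _ i
    have e1 : ∑ j ∈ univ.filter (fun j => (i, j) ∈ E), wt p (fun _ => r) κ i j a =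
        ∑ v ∈ V, ∑ j ∈ (univ.filter (fun j => (i, j) ∈ E)) with p j - p i = v,
          wt p (fun _ => r) κ i j a := by
      rw [sum_fiberwise_of_maps_to]
      intro j hj
      rw [mem_filter] at hj
      exact hV i j hj.2
    rw [e1, hS]
    dsimp only
    rw [mul_sum]
    apply sum_le_sum
    intro v _
    calc ∑ j ∈ (univ.filter (fun j => (i, j) ∈ E)) with p j - p i = v,
          wt p (fun _ => r) κ i j a
        = ∑ j ∈ (univ.filter (fun j => (i, j) ∈ E)) with p j - p i = v, wv r κ v a := by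
          apply sum_congr rfl
          intro j hj
          rw [mem_filter] at hj
          rw [wt_eq, hj.2]
      _ ≤ μ * wv r κ v a := by
          rw [sum_const, nsmul_eq_mul]
          apply mul_le_mul_left
          have hle : ((univ.filter (fun j => (i, j) ∈ E)).filter (fun j => p j - p i = v)).card ≤
              μ := by
            refine le_trans (card_le_card ?_) (hμ (p i + v))
            intro j hj
            rw [mem_filter] at hj
            rw [mem_filter]
            refine ⟨mem_univ _, ?_⟩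
            rw [← hj.2]
            abel
          exact_mod_cast hle
  refine (fwdOn_star h E k hSm hS1).trans ?_
  rw [hS]
  dsimp only
  rw [lintegral_const_mul _ hsm, lintegral_finsetSum _ fun v _ => measurable_wv r κ v]
  calc 4 * ((μ:ℝ≥0∞) * ∑ v ∈ V, ∫⁻ a in Set.Icc (-1:ℝ) 1, wv r κ v a)
      ≤ 4 * ((μ:ℝ≥0∞) * ∑ v ∈ V, ENNReal.ofReal (32 * κ)) := by
        gcongr with v _
        exact wv_int hr hκ v
    _ = ENNReal.ofReal (128 * κ * μ * V.card) := by
        rw [sum_const, nsmul_eq_mul, show (4:ℝ≥0∞) = ENNReal.ofReal 4 by norm_num,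
          ← ENNReal.ofReal_natCast, ← ENNReal.ofReal_natCast, ← ENNReal.ofReal_mul (by positivity),
          ← ENNReal.ofReal_mul (by positivity), ← ENNReal.ofReal_mul (by positivity)]
        congr 1
        ring

lemma R_sub (z w : ℝ × ℝ) : R z - R w = R (z - w) := by
  unfold R
  ext
  · simp; ring
  · simp

lemma R_inj : Injective R := fun z w h => by
  have := congrArg S h
  rwa [S_R, S_R] at this

open scoped Classical in
/-- `k`-edges in the classes of the vectors of `V` -/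
theorem edgesOn_V (h : Noise f p (fun _ => r) κ D) (hr : 0 < r) {μ : ℕ}
    (hμ : ∀ z, (univ.filter fun j => p j = z).card ≤ μ) {E : Finset (Fin n × Fin n)}
    {V : Finset (ℝ × ℝ)} (hV : ∀ i j, (i, j) ∈ E → p j - p i ∈ V) (k : ℕ) :
    ∫⁻ x, (edgesOn E x k : ℝ≥0∞) ∂law f ≤ ENNReal.ofReal (512 * κ * μ * V.card) := by
  set Q : (Fin n → ℝ × ℝ) → Prop := fun p => (∀ z, (univ.filter fun j => p j = z).card ≤ μ) ∧
    ∃ V' : Finset (ℝ × ℝ), V'.card ≤ V.card ∧ ∀ i j, (i, j) ∈ E → p j - p i ∈ V' with hQ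
  have hQr : ∀ p, Q p → Q fun i => R (p i) := by
    rintro p ⟨h1, V', h2, h3⟩
    refine ⟨fun z => ?_, V'.image R, card_image_le.trans h2, fun i j hij => ?_⟩
    · refine le_trans (card_le_card ?_) (h1 (S z))
      intro j hj
      rw [mem_filter] at hj ⊢
      refine ⟨mem_univ _, ?_⟩
      rw [← hj.2, S_R]
    · dsimp only
      rw [R_sub]
      exact mem_image_of_mem R (h3 i j hij)
  have hmain := edgesOn_four (r := fun _ => r) (κ := κ) (D := D) E k hQr
    (B := ENNReal.ofReal (128 * κ * μ * V.card)) (fun f p h' hq => by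
      obtain ⟨h1, V', h2, h3⟩ := hq
      refine (fwd_V h' hr h1 h3 k).trans (ENNReal.ofReal_le_ofReal ?_)
      have hκ := h'.kpos
      have : (V'.card : ℝ) ≤ V.card := by exact_mod_cast h2
      gcongr) h ⟨hμ, V, le_rfl, hV⟩
  refine hmain.trans (le_of_eq ?_)
  have hκ := h.kpos
  rw [show (4:ℝ≥0∞) = ENNReal.ofReal 4 by norm_num, ← ENNReal.ofReal_mul (by norm_num)]
  congr 1
  ring

/-- no points -/
lemma edges_of_zero {n : ℕ} (hn : n = 0) (x : Fin n → ℝ × ℝ) (k : ℕ) : edges x k = 0 := by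
  subst hn
  unfold edges
  simp

lemma D_pos (h : Noise f p (fun _ => r) κ D) (hr : 0 < r) (hn : 0 < n) : 0 < D := by
  have h4 := (h.diam ⟨0, hn⟩ ⟨0, hn⟩).1
  have h5 := abs_nonneg ((p ⟨0, hn⟩).1 - (p ⟨0, hn⟩).1)
  linarith

/-- near pairs are enough -/
lemma edges_E (h : Noise f p (fun _ => r) κ D) (hr : 0 < r) (hn : 0 < n) {K : ℕ} (hK : 0 < K)
    {Q : (Fin n → ℝ × ℝ) → Prop} (hQ : ∀ p, Q p → Q fun i => R (p i)) {B : ℝ} (hB0 : 0 ≤ B)
    (k : ℕ)
    (hB : ∀ (f : Fin n → ℝ × ℝ → ℝ≥0∞) (p : Fin n → ℝ × ℝ), Noise f p (fun _ => r) κ D → Q p →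
      ∀ E : Finset (Fin n × Fin n), (∀ i j, (i, j) ∈ E → |(p j).1 - (p i).1| ≤ D / K + 3 * r ∧
        |(p j).2 - (p i).2| ≤ D / K + 3 * r) →
      ∫⁻ x, (fwdOn E x k : ℝ≥0∞) ∂law f ≤ ENNReal.ofReal B) (hq : Q p) :
    ∫⁻ x, (edges x k : ℝ≥0∞) ∂law f ≤ ENNReal.ofReal (4 * (K - 1) * (k + 1) + 4 * B) := by
  classical
  have hK1 : (1:ℝ) ≤ K := by exact_mod_cast hK
  have hD := D_pos h hr hn
  have hKR : (0:ℝ) < K := by exact_mod_cast hK
  have hmain := edges_four (r := fun _ => r) (κ := κ) (D := D) k hQ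
    (B := ENNReal.ofReal ((K - 1) * (k + 1) + B)) (fun f p h' hq => by
      set E : Finset (Fin n × Fin n) := univ.filter fun e : Fin n × Fin n =>
        |(p e.2).1 - (p e.1).1| ≤ D / K + 3 * r ∧ |(p e.2).2 - (p e.1).2| ≤ D / K + 3 * r with hE
      have hw : D < K * (D / K + r) := by
        have : (K:ℝ) * (D / K + r) = D + K * r := by field_simp
        rw [this]
        have : 0 < (K:ℝ) * r := by positivity
        linarith
      have hw0 : 0 < D / K + r := by positivity
      have h1 := edges0_E h' hw0 hw (ρ := r) (fun _ => le_rfl) (E := E) (fun i j a1 a2 => by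
        rw [hE, mem_filter]
        refine ⟨mem_univ _, ?_, ?_⟩ <;> dsimp only
        · linarith
        · linarith) k
      have h2 := hB f p h' hq E (fun i j hij => by
        rw [hE, mem_filter] at hij
        exact hij.2)
      refine (h1.trans (add_le_add le_rfl h2)).trans (le_of_eq ?_)
      rw [← ENNReal.ofReal_natCast, ← ENNReal.ofReal_add (Nat.cast_nonneg _) hB0]
      congr 2
      rw [Nat.cast_mul, Nat.cast_sub hK]
      push_cast
      ring) h hq
  refine hmain.trans (le_of_eq ?_)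
  rw [show (4:ℝ≥0∞) = ENNReal.ofReal 4 by norm_num, ← ENNReal.ofReal_mul (by norm_num)]
  congr 1
  ring

/-- passing to the smaller side -/
lemma edges_min (h : Noise f p (fun _ => r) κ D) {c B : ℝ} (k : ℕ)
    (H : ∀ k' : ℕ, ∫⁻ x, (edges x k' : ℝ≥0∞) ∂law f ≤ ENNReal.ofReal (c * (k' + 1) + B)) :
    ∫⁻ x, (edges x k : ℝ≥0∞) ∂law f ≤
      ENNReal.ofReal (c * (min (k + 1) (n - 1 - k) : ℕ) + B) := by
  by_cases hk : n < k + 2
  · have h0 : ∫⁻ x, (edges x k : ℝ≥0∞) ∂law f = 0 := by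
      rw [lintegral_eq_zero_iff' ]
      · filter_upwards [h.ae_good] with x hx
        rw [edges_zero hx.2 hk]
        simp
      · exact (measurable_from_top.comp (measurable_edges k)).aemeasurable
    rw [h0]
    exact zero_le
  push Not at hk
  rcases le_total (k + 1) (n - 1 - k) with hcs | hcs
  · rw [min_eq_left hcs]
    refine (H k).trans (le_of_eq ?_)
    push_cast
    rfl
  · rw [min_eq_right hcs]
    have hmk : n - 1 - k = (n - 2 - k) + 1 := by omega
    rw [hmk]
    push_cast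
    refine le_trans (lintegral_mono_ae ?_) (H (n - 2 - k))
    filter_upwards [h.ae_good] with x hx
    exact_mod_cast edges_symm hx.2 k

open scoped Classical in
/-- `k`-edges and near differences -/
theorem edges_V (h : Noise f p (fun _ => r) κ D) (hr : 0 < r) {μ : ℕ}
    (hμ : ∀ z, (univ.filter fun j => p j = z).card ≤ μ) {K : ℕ} (hK : 0 < K)
    {V : Finset (ℝ × ℝ)} (hV : ∀ i j, |(p j).1 - (p i).1| ≤ D / K + 3 * r →
      |(p j).2 - (p i).2| ≤ D / K + 3 * r → p j - p i ∈ V) (k : ℕ) :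
    ∫⁻ x, (edges x k : ℝ≥0∞) ∂law f ≤
      ENNReal.ofReal (4 * (K - 1) * (min (k + 1) (n - 1 - k) : ℕ) + 512 * κ * μ * V.card) := by
  have hκ := h.kpos
  have hKR : (0:ℝ) < K := by exact_mod_cast hK
  have hK1 : (1:ℝ) ≤ K := by exact_mod_cast hK
  have hB0 : 0 ≤ 512 * κ * μ * V.card := by positivity
  rcases Nat.eq_zero_or_pos n with hn | hn
  · have : ∀ x : Fin n → ℝ × ℝ, (edges x k : ℝ≥0∞) = 0 := fun x => by
      rw [edges_of_zero hn]; simp
    simp [this]
  apply edges_min h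
  intro k
  set Q : (Fin n → ℝ × ℝ) → Prop := fun p => (∀ z, (univ.filter fun j => p j = z).card ≤ μ) ∧
    ∃ V' : Finset (ℝ × ℝ), V'.card ≤ V.card ∧ ∀ i j, |(p j).1 - (p i).1| ≤ D / K + 3 * r →
      |(p j).2 - (p i).2| ≤ D / K + 3 * r → p j - p i ∈ V' with hQ
  have hQr : ∀ p, Q p → Q fun i => R (p i) := by
    rintro p ⟨h1, V', h2, h3⟩
    refine ⟨fun z => ?_, V'.image R, card_image_le.trans h2, fun i j a1 a2 => ?_⟩
    · refine le_trans (card_le_card ?_) (h1 (S z))
      intro j hj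
      rw [mem_filter] at hj ⊢
      refine ⟨mem_univ _, ?_⟩
      rw [← hj.2, S_R]
    · dsimp only
      rw [R_sub]
      apply mem_image_of_mem R
      simp only [R] at a1 a2
      apply h3 i j a2
      rw [← abs_neg]
      convert a1 using 2
      ring
  have hmain := edges_E h hr hn hK hQr (B := 128 * κ * μ * V.card) (by positivity) k
    (fun f p h' hq E hE => by
      obtain ⟨h1, V', h2, h3⟩ := hq
      refine (fwd_V h' hr h1 (V := V') (fun i j hij => h3 i j (hE i j hij).1 (hE i j hij).2)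
        k).trans (ENNReal.ofReal_le_ofReal ?_)
      have : (V'.card : ℝ) ≤ V.card := by exact_mod_cast h2
      gcongr) ⟨hμ, V, le_rfl, hV⟩
  refine hmain.trans (le_of_eq ?_)
  congr 1
  ring

end

end Pool.Agent.H15.SF
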